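import Mathlib

/-!
# The developing map of a flat region

A vertex is flat (`Link6`) if its neighbourhood is an induced cycle of length six. If all vertices
near `c` are flat then there is a map of a part of the triangular lattice to the graph which is a
local isomorphism.
-/

set_option autoImplicit false

namespace Pool.Agent.U5

open SimpleGraph

variable {V : Type}

/-- `l` is a labelling of the link of `v`: an induced 6-cycle -/
structure Lab (H : SimpleGraph V) (v : V) (l : ZMod 6 → V) : Prop where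
  inj : Function.Injective l
  adj : ∀ x, H.Adj v x ↔ ∃ i, x = l i
  cyc : ∀ i j, H.Adj (l i) (l j) ↔ (j = i + 1 ∨ j = i - 1)

/-- the link of `v` is an induced 6-cycle -/
def Link6 (H : SimpleGraph V) (v : V) : Prop := ∃ l, Lab H v l

/-- the labelling `m` at `w` is the transport of the labelling `l` at `v` in direction `i` -/
structure Nb (i : ZMod 6) (v : V) (l : ZMod 6 → V) (w : V) (m : ZMod 6 → V) : Prop where
  w_eq : w = l i
  v_eq : m (i + 3) = v
  up : m (i + 2) = l (i + 1)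
  down : m (i + 4) = l (i - 1)

variable {H : SimpleGraph V}

lemma Nb.symm {i : ZMod 6} {v w : V} {l m : ZMod 6 → V} (h : Nb i v l w m) :
    Nb (i + 3) w m v l := by
  have a1 : i + 3 + 3 = i := by
    rw [add_assoc, show (3 : ZMod 6) + 3 = 0 from by decide, add_zero]
  have a2 : i + 3 + 2 = i - 1 := by
    rw [add_assoc, show (3 : ZMod 6) + 2 = -1 from by decide, sub_eq_add_neg]
  have a3 : i + 3 + 1 = i + 4 := by
    rw [add_assoc, show (3 : ZMod 6) + 1 = 4 from by decide]
  have a4 : i + 3 + 4 = i + 1 := by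
    rw [add_assoc, show (3 : ZMod 6) + 4 = 1 from by decide]
  have a5 : i + 3 - 1 = i + 2 := by
    rw [add_sub_assoc, show (3 : ZMod 6) - 1 = 2 from by decide]
  refine ⟨h.v_eq.symm, ?_, ?_, ?_⟩
  · rw [a1, h.w_eq]
  · rw [a2, a3, h.down]
  · rw [a4, a5, h.up]

/-- existence of the transport -/
lemma exists_nb (i : ZMod 6) {v : V} {l : ZMod 6 → V} (hl : Lab H v l) (hw : Link6 H (l i)) :
    ∃ m, Lab H (l i) m ∧ Nb i v l (l i) m := by
  obtain ⟨g, hg⟩ := hw
  have hv : H.Adj (l i) v := ((hl.adj (l i)).2 ⟨i, rfl⟩).symm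
  obtain ⟨k, hk⟩ := (hg.adj v).1 hv
  have h1 : H.Adj (l i) (l (i + 1)) := (hl.cyc _ _).2 (Or.inl rfl)
  have h2 : H.Adj (l i) (l (i - 1)) := (hl.cyc _ _).2 (Or.inr rfl)
  obtain ⟨a, ha⟩ := (hg.adj _).1 h1
  obtain ⟨b, hb⟩ := (hg.adj _).1 h2
  have h3 : H.Adj v (l (i + 1)) := (hl.adj _).2 ⟨_, rfl⟩
  have h4 : H.Adj v (l (i - 1)) := (hl.adj _).2 ⟨_, rfl⟩
  rw [hk, ha, hg.cyc] at h3
  rw [hk, hb, hg.cyc] at h4
  have hab : a ≠ b := by
    intro h
    have h5 := hl.inj (ha.trans ((congrArg g h).trans hb.symm))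
    have : (1 : ZMod 6) = -1 := by linear_combination h5
    exact absurd this (by decide)
  rcases h3 with h3 | h3
  · have h4 : b = k - 1 := by
      rcases h4 with h4 | h4
      · exact absurd (h3.trans h4.symm) hab
      · exact h4
    refine ⟨fun j => g ((i + 3) - j + k), ⟨?_, ?_, ?_⟩, ⟨rfl, ?_, ?_, ?_⟩⟩
    · intro x y hxy
      have := hg.inj hxy
      linear_combination -this
    · intro x
      rw [hg.adj]
      constructor
      · rintro ⟨j, hj⟩
        exact ⟨(i + 3) - j + k, by rw [hj]; congr 1; ring⟩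
      · rintro ⟨j, hj⟩
        exact ⟨_, hj⟩
    · intro x y
      rw [hg.cyc]
      constructor
      · rintro (h | h)
        · right; linear_combination -h
        · left; linear_combination -h
      · rintro (h | h)
        · right; linear_combination -h
        · left; linear_combination -h
    · show g ((i + 3) - (i + 3) + k) = v
      rw [hk]; congr 1; ring
    · show g ((i + 3) - (i + 2) + k) = _
      rw [ha, h3]; congr 1; ring
    · show g ((i + 3) - (i + 4) + k) = _
      rw [hb, h4]; congr 1; ring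
  · have h4 : b = k + 1 := by
      rcases h4 with h4 | h4
      · exact h4
      · exact absurd (h3.trans h4.symm) hab
    refine ⟨fun j => g (j - (i + 3) + k), ⟨?_, ?_, ?_⟩, ⟨rfl, ?_, ?_, ?_⟩⟩
    · intro x y hxy
      have := hg.inj hxy
      linear_combination this
    · intro x
      rw [hg.adj]
      constructor
      · rintro ⟨j, hj⟩
        exact ⟨j + (i + 3) - k, by rw [hj]; congr 1; ring⟩
      · rintro ⟨j, hj⟩
        exact ⟨_, hj⟩
    · intro x y
      rw [hg.cyc]
      constructor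
      · rintro (h | h)
        · left; linear_combination h
        · right; linear_combination h
      · rintro (h | h)
        · left; linear_combination h
        · right; linear_combination h
    · show g ((i + 3) - (i + 3) + k) = v
      rw [hk]; congr 1; ring
    · show g ((i + 2) - (i + 3) + k) = _
      rw [ha, h3]; congr 1; ring
    · show g ((i + 4) - (i + 3) + k) = _
      rw [hb, h4]; congr 1; ring

/-- triangles have trivial monodromy -/
lemma Nb.triangle {i : ZMod 6} {v w x : V} {l m n : ZMod 6 → V} (hm : Lab H w m) (hn : Lab H x n)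
    (h1 : Nb i v l w m) (h2 : Nb (i + 1) v l x n) : Nb (i + 2) w m x n := by
  have e1 : x = m (i + 2) := by rw [h1.up, h2.w_eq]
  have e2 : n (i + 5) = w := by
    have := h2.down
    rw [add_assoc, show (1 : ZMod 6) + 4 = 5 from by decide, add_sub_cancel_right] at this
    rw [this, h1.w_eq]
  have e3 : n (i + 4) = v := by
    have := h2.v_eq
    rwa [add_assoc, show (1 : ZMod 6) + 3 = 4 from by decide] at this
  refine ⟨e1, ?_, ?_, ?_⟩
  · rw [add_assoc, show (2 : ZMod 6) + 3 = 5 from by decide]; exact e2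
  · rw [add_assoc, add_assoc, show (2 : ZMod 6) + 2 = 4 from by decide,
      show (2 : ZMod 6) + 1 = 3 from by decide, e3, h1.v_eq]
  · rw [add_assoc, show (2 : ZMod 6) + 4 = 0 from by decide, add_zero, add_sub_assoc,
      show (2 : ZMod 6) - 1 = 1 from by decide]
    have h3 : H.Adj (n (i + 5)) (n i) := (hn.cyc _ _).2 (Or.inl (by
      rw [add_assoc, show (5 : ZMod 6) + 1 = 0 from by decide, add_zero]))
    have h4 : H.Adj x (n i) := (hn.adj _).2 ⟨_, rfl⟩
    rw [e2] at h3
    obtain ⟨j, hj⟩ := (hm.adj _).1 h3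
    rw [e1, hj, hm.cyc] at h4
    rcases h4 with h4 | h4
    · exfalso
      have h5 : n i = n (i + 4) := by
        rw [hj, h4, e3, ← h1.v_eq]
        congr 1
        rw [add_assoc, show (2 : ZMod 6) + 1 = 3 from by decide]
      have h6 := hn.inj h5
      have : (4 : ZMod 6) = 0 := by linear_combination -h6
      exact absurd this (by decide)
    · rw [hj, h4]
      congr 1
      ring

/-- coordinates of the six directions -/
def ex : ZMod 6 → ℤ := ![1, 0, -1, -1, 0, 1]
/-- coordinates of the six directions -/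
def ey : ZMod 6 → ℤ := ![0, 1, 1, 0, -1, -1]

/-- `φ` is a local isomorphism at the lattice point `(a, b)` -/
def Loc (H : SimpleGraph V) (φ : ℤ → ℤ → V) (a b : ℤ) : Prop :=
  Lab H (φ a b) (fun i => φ (a + ex i) (b + ey i))

/-- everything within distance `n` of `c` is flat -/
def FlatB (H : SimpleGraph V) (c : V) (n : ℕ) : Prop :=
  ∀ v, (∃ p : H.Walk c v, p.length ≤ n) → Link6 H v

open scoped Classical in
/-- one step -/
noncomputable def stp (H : SimpleGraph V) (i : ZMod 6) (A : V × (ZMod 6 → V)) :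
    V × (ZMod 6 → V) :=
  if h : ∃ B : V × (ZMod 6 → V), Lab H B.1 B.2 ∧ Nb i A.1 A.2 B.1 B.2 then h.choose else A

lemma stp_spec {i : ZMod 6} {A : V × (ZMod 6 → V)} (hA : Lab H A.1 A.2) (h : Link6 H (A.2 i)) :
    Lab H (stp H i A).1 (stp H i A).2 ∧ Nb i A.1 A.2 (stp H i A).1 (stp H i A).2 := by
  have hex : ∃ B : V × (ZMod 6 → V), Lab H B.1 B.2 ∧ Nb i A.1 A.2 B.1 B.2 := by
    obtain ⟨m, hm1, hm2⟩ := exists_nb i hA h
    exact ⟨(A.2 i, m), hm1, hm2⟩
  unfold stp
  rw [dif_pos hex]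
  exact hex.choose_spec

/-- the labelled vertices of the quadrant -/
noncomputable def qd (H : SimpleGraph V) (A : V × (ZMod 6 → V)) (a b : ℕ) : V × (ZMod 6 → V) :=
  (stp H 1)^[b] ((stp H 0)^[a] A)

lemma qd_succ (A : V × (ZMod 6 → V)) (a b : ℕ) : qd H A a (b + 1) = stp H 1 (qd H A a b) := by
  unfold qd
  rw [Function.iterate_succ_apply']

lemma qd_succ' (A : V × (ZMod 6 → V)) (a : ℕ) : qd H A (a + 1) 0 = stp H 0 (qd H A a 0) := by
  unfold qd
  rw [Function.iterate_zero, id, Function.iterate_succ_apply']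
  rfl

lemma dist_step {n : ℕ} {c v w : V} (hv : ∃ p : H.Walk c v, p.length ≤ n) (h : H.Adj v w) :
    ∃ p : H.Walk c w, p.length ≤ n + 1 := by
  obtain ⟨p, hp⟩ := hv
  exact ⟨p.concat h, by rw [Walk.length_concat]; omega⟩

lemma qd_lab {c : V} {n : ℕ} (hf : FlatB H c n) {A : V × (ZMod 6 → V)} (hA : Lab H A.1 A.2)
    (hc : A.1 = c) : ∀ b a : ℕ, a + b ≤ n → Lab H (qd H A a b).1 (qd H A a b).2 ∧
      (∃ p : H.Walk c (qd H A a b).1, p.length ≤ a + b) := by
  intro b
  induction b with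
  | zero =>
    intro a
    induction a with
    | zero =>
      intro _
      refine ⟨hA, ?_⟩
      show ∃ p : H.Walk c A.1, p.length ≤ 0 + 0
      rw [hc]
      exact ⟨Walk.nil, le_rfl⟩
    | succ a ih =>
      intro h
      obtain ⟨h1, h2⟩ := ih (by omega)
      rw [qd_succ']
      have h3 : H.Adj (qd H A a 0).1 ((qd H A a 0).2 0) := (h1.adj _).2 ⟨0, rfl⟩
      have h4 := dist_step h2 h3
      obtain ⟨h5, h6⟩ := stp_spec h1 (hf _ (by
        obtain ⟨p, hp⟩ := h4; exact ⟨p, by omega⟩))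
      refine ⟨h5, ?_⟩
      rw [h6.w_eq]
      obtain ⟨p, hp⟩ := h4
      exact ⟨p, by omega⟩
  | succ b ih =>
    intro a h
    obtain ⟨h1, h2⟩ := ih a (by omega)
    rw [qd_succ]
    have h3 : H.Adj (qd H A a b).1 ((qd H A a b).2 1) := (h1.adj _).2 ⟨1, rfl⟩
    have h4 := dist_step h2 h3
    obtain ⟨h5, h6⟩ := stp_spec h1 (hf _ (by
      obtain ⟨p, hp⟩ := h4; exact ⟨p, by omega⟩))
    refine ⟨h5, ?_⟩
    rw [h6.w_eq]
    obtain ⟨p, hp⟩ := h4
    exact ⟨p, by omega⟩

lemma qd_nb1 {c : V} {n : ℕ} (hf : FlatB H c n) {A : V × (ZMod 6 → V)} (hA : Lab H A.1 A.2)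
    (hc : A.1 = c) {a b : ℕ} (h : a + b + 1 ≤ n) :
    Nb 1 (qd H A a b).1 (qd H A a b).2 (qd H A a (b + 1)).1 (qd H A a (b + 1)).2 := by
  obtain ⟨h1, h2⟩ := qd_lab hf hA hc b a (by omega)
  rw [qd_succ]
  refine (stp_spec h1 (hf _ ?_)).2
  obtain ⟨p, hp⟩ := dist_step h2 ((h1.adj _).2 ⟨1, rfl⟩)
  exact ⟨p, by omega⟩

lemma qd_nb0 {c : V} {n : ℕ} (hf : FlatB H c n) {A : V × (ZMod 6 → V)} (hA : Lab H A.1 A.2)
    (hc : A.1 = c) : ∀ (b a : ℕ), a + b + 1 ≤ n →
    Nb 0 (qd H A a b).1 (qd H A a b).2 (qd H A (a + 1) b).1 (qd H A (a + 1) b).2 := by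
  intro b
  induction b with
  | zero =>
    intro a h
    obtain ⟨h1, h2⟩ := qd_lab hf hA hc 0 a (by omega)
    rw [qd_succ']
    refine (stp_spec h1 (hf _ ?_)).2
    obtain ⟨p, hp⟩ := dist_step h2 ((h1.adj _).2 ⟨0, rfl⟩)
    exact ⟨p, by omega⟩
  | succ b ih =>
    intro a h
    have hAB := ih a (by omega)
    have hAC := qd_nb1 hf hA hc (a := a) (b := b) (by omega)
    have hBD := qd_nb1 hf hA hc (a := a + 1) (b := b) (by omega)
    have lB := (qd_lab hf hA hc b (a + 1) (by omega)).1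
    have lC := (qd_lab hf hA hc (b + 1) a (by omega)).1
    have lD := (qd_lab hf hA hc (b + 1) (a + 1) (by omega)).1
    have hBC : Nb (0 + 2) _ _ _ _ := Nb.triangle lB lC hAB (by rw [zero_add]; exact hAC)
    have hDC : Nb (1 + 2) _ _ _ _ := Nb.triangle lD lC hBD (by
      rw [show (1 : ZMod 6) + 1 = 0 + 2 from by decide]; exact hBC)
    have := hDC.symm
    rwa [show (1 : ZMod 6) + 2 + 3 = 0 from by decide] at this

lemma qd_nb2 {c : V} {n : ℕ} (hf : FlatB H c n) {A : V × (ZMod 6 → V)} (hA : Lab H A.1 A.2)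
    (hc : A.1 = c) {a b : ℕ} (h : a + b + 2 ≤ n) :
    Nb 2 (qd H A (a + 1) b).1 (qd H A (a + 1) b).2 (qd H A a (b + 1)).1
      (qd H A a (b + 1)).2 := by
  have hAB := qd_nb0 hf hA hc b a (by omega)
  have hAC := qd_nb1 hf hA hc (a := a) (b := b) (by omega)
  have lB := (qd_lab hf hA hc b (a + 1) (by omega)).1
  have lC := (qd_lab hf hA hc (b + 1) a (by omega)).1
  have hBC := Nb.triangle lB lC hAB (by rw [zero_add]; exact hAC)
  rwa [zero_add] at hBC

/-- the six neighbours in the quadrant -/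
lemma qd_all {c : V} {n : ℕ} (hf : FlatB H c n) {A : V × (ZMod 6 → V)} (hA : Lab H A.1 A.2)
    (hc : A.1 = c) {a b : ℕ} (h : a + b + 4 ≤ n) :
    (qd H A (a + 1) (b + 1)).2 0 = (qd H A (a + 2) (b + 1)).1 ∧
    (qd H A (a + 1) (b + 1)).2 1 = (qd H A (a + 1) (b + 2)).1 ∧
    (qd H A (a + 1) (b + 1)).2 2 = (qd H A a (b + 2)).1 ∧
    (qd H A (a + 1) (b + 1)).2 3 = (qd H A a (b + 1)).1 ∧
    (qd H A (a + 1) (b + 1)).2 4 = (qd H A (a + 1) b).1 ∧
    (qd H A (a + 1) (b + 1)).2 5 = (qd H A (a + 2) b).1 := by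
  refine ⟨(qd_nb0 hf hA hc (b + 1) (a + 1) (by omega)).w_eq.symm,
    (qd_nb1 hf hA hc (a := a + 1) (b := b + 1) (by omega)).w_eq.symm,
    (qd_nb2 hf hA hc (a := a) (b := b + 1) (by omega)).w_eq.symm, ?_, ?_, ?_⟩
  · have := (qd_nb0 hf hA hc (b + 1) a (by omega)).symm.w_eq
    rw [zero_add] at this
    exact this.symm
  · have := (qd_nb1 hf hA hc (a := a + 1) (b := b) (by omega)).symm.w_eq
    rw [show (1 : ZMod 6) + 3 = 4 from by decide] at this
    exact this.symm
  · have := (qd_nb2 hf hA hc (a := a + 1) (b := b) (by omega)).symm.w_eq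
    rw [show (2 : ZMod 6) + 3 = 5 from by decide] at this
    exact this.symm

/-- the developing map -/
theorem exists_dev {c : V} {r : ℕ} (hf : FlatB H c (4 * r + 4)) :
    ∃ φ : ℤ → ℤ → V, ∀ a b : ℤ, |a| ≤ r → |b| ≤ r → Loc H φ a b := by
  obtain ⟨l, hl⟩ := hf c ⟨Walk.nil, by simp⟩
  set A : V × (ZMod 6 → V) := (c, l) with hAdef
  have hA : Lab H A.1 A.2 := hl
  have hc : A.1 = c := rfl
  refine ⟨fun a b => (qd H A (a + (r + 1)).toNat (b + (r + 1)).toNat).1, ?_⟩
  intro a b ha hb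
  rw [abs_le] at ha hb
  obtain ⟨a', ha'⟩ : ∃ a' : ℕ, a + r = a' := ⟨(a + r).toNat, by omega⟩
  obtain ⟨b', hb'⟩ : ∃ b' : ℕ, b + r = b' := ⟨(b + r).toNat, by omega⟩
  have hab : a' + b' + 4 ≤ 4 * r + 4 := by omega
  have hall := qd_all hf hA hc hab
  have hlab := (qd_lab hf hA hc (b' + 1) (a' + 1) (by omega)).1
  unfold Loc
  have e0 : ∀ (x y : ℤ) (x' y' : ℕ), a + x + (r + 1) = x' → b + y + (r + 1) = y' →
      (qd H A (a + x + (r + 1)).toNat (b + y + (r + 1)).toNat).1 = (qd H A x' y').1 := by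
    intro x y x' y' h1 h2
    rw [h1, h2]
    simp
  have e1 : (qd H A (a + (r + 1)).toNat (b + (r + 1)).toNat).1 = (qd H A (a' + 1) (b' + 1)).1 := by
    have := e0 0 0 (a' + 1) (b' + 1) (by push_cast; omega) (by push_cast; omega)
    simpa using this
  have e2 : (fun i => (qd H A (a + ex i + (r + 1)).toNat (b + ey i + (r + 1)).toNat).1) =
      (qd H A (a' + 1) (b' + 1)).2 := by
    obtain ⟨h0, h1, h2, h3, h4, h5⟩ := hall
    funext i
    fin_cases i
    · rw [show (⟨0, by decide⟩ : Fin 6) = (0 : ZMod 6) from rfl]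
      rw [h0]
      exact e0 1 0 (a' + 2) (b' + 1) (by push_cast; omega) (by push_cast; omega)
    · rw [show (⟨1, by decide⟩ : Fin 6) = (1 : ZMod 6) from rfl]
      rw [h1]
      exact e0 0 1 (a' + 1) (b' + 2) (by push_cast; omega) (by push_cast; omega)
    · rw [show (⟨2, by decide⟩ : Fin 6) = (2 : ZMod 6) from rfl]
      rw [h2]
      exact e0 (-1) 1 a' (b' + 2) (by push_cast; omega) (by push_cast; omega)
    · rw [show (⟨3, by decide⟩ : Fin 6) = (3 : ZMod 6) from rfl]
      rw [h3]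
      exact e0 (-1) 0 a' (b' + 1) (by push_cast; omega) (by push_cast; omega)
    · rw [show (⟨4, by decide⟩ : Fin 6) = (4 : ZMod 6) from rfl]
      rw [h4]
      exact e0 0 (-1) (a' + 1) b' (by push_cast; omega) (by push_cast; omega)
    · rw [show (⟨5, by decide⟩ : Fin 6) = (5 : ZMod 6) from rfl]
      rw [h5]
      exact e0 1 (-1) (a' + 2) b' (by push_cast; omega) (by push_cast; omega)
  show Lab H (qd H A (a + (r + 1)).toNat (b + (r + 1)).toNat).1
    (fun i => (qd H A (a + ex i + (r + 1)).toNat (b + ey i + (r + 1)).toNat).1)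
  rw [e1, e2]
  exact hlab

end Pool.Agent.U5
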