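import Pool.Agent.Helper42.U5.Corner
import Pool.Agent.Helper42.U5.Dev
import Pool.Agent.Helper98.U5.Final
import Pool.Agent.U5.Flat

/-!
# From the outcome statement to the hypotheses of the discharging
-/

set_option autoImplicit false

namespace Pool.Agent.U5

open SimpleGraph Finset Pool.Agent.Helper36.BL Pool.Agent.Helper1.PG
open scoped Classical

variable {V : Type} [Fintype V] {B H : SimpleGraph V} {S : Finset V} {F : Type} [Fintype F]

/-- number of outer neighbours, on `Γ` -/
noncomputable def aG (H : SimpleGraph V) (S : Finset V) : Option {s : V // s ∈ act H S} → ℕ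
  | some s => aV H S s
  | none => 0

/-- degree in `H`, on `Γ` -/
noncomputable def dG (H : SimpleGraph V) (S : Finset V) : Option {s : V // s ∈ act H S} → ℕ
  | some s => deg H s
  | none => 0

@[simp] lemma aG_some (s : {s : V // s ∈ act H S}) : aG H S (some s) = aV H S s := rfl
@[simp] lemma dG_some (s : {s : V // s ∈ act H S}) : dG H S (some s) = deg H s := rfl

lemma ne_none {v : Option {s : V // s ∈ act H S}} (h : v ≠ none) : ∃ s, v = some s :=
  Option.ne_none_iff_exists'.1 h

variable (D : PlaneData (gam H S) F)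

/-- the two faces at an edge and the neighbouring edges -/
lemma corner_cases {u x y z : Option {s : V // s ∈ act H S}} {f g : F} (hfg : f ≠ g)
    (h1 : D.on f u x) (h2 : D.on f u y) (h3 : D.on g u y) (h4 : D.on g u z) (hxy : x ≠ y)
    (hyz : y ≠ z) : ∃ m, D.nb u m = y ∧
      ((f = D.fc u (m - 1) ∧ g = D.fc u m ∧ x = D.nb u (m - 1) ∧ z = D.nb u (m + 1)) ∨
       (f = D.fc u m ∧ g = D.fc u (m - 1) ∧ x = D.nb u (m + 1) ∧ z = D.nb u (m - 1))) := by
  obtain ⟨m, hm⟩ := (D.adj_iff u y).1 (D.on_adj _ _ _ h2)
  refine ⟨m, hm, ?_⟩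
  rw [← hm, D.on_iff] at h2 h3
  have key : ∀ w, w ≠ y → ∀ k, D.on (D.fc u k) u w → w = D.nb u k ∨ w = D.nb u (k + 1) := by
    intro w _ k hk
    obtain ⟨j, rfl⟩ := (D.adj_iff u w).1 (D.on_adj _ _ _ hk)
    rw [D.on_iff] at hk
    rcases hk with hk | hk
    · left; rw [D.fc_inj u hk]
    · right
      have := D.fc_inj u hk
      rw [this, sub_add_cancel]
  rcases h2 with h2 | h2 <;> rcases h3 with h3 | h3
  · exact absurd (h2.trans h3.symm) hfg
  · right
    refine ⟨h2, h3, ?_, ?_⟩
    · rw [h2] at h1
      rcases key x hxy m h1 with h | h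
      · exact absurd (h.trans hm) hxy
      · exact h
    · rw [h3] at h4
      rcases key z hyz.symm (m - 1) h4 with h | h
      · exact h
      · rw [sub_add_cancel] at h
        exact absurd (h.trans hm) hyz.symm
  · left
    refine ⟨h2, h3, ?_, ?_⟩
    · rw [h2] at h1
      rcases key x hxy (m - 1) h1 with h | h
      · exact h
      · rw [sub_add_cancel] at h
        exact absurd (h.trans hm) hxy
    · rw [h3] at h4
      rcases key z hyz.symm m h4 with h | h
      · exact absurd (h.trans hm) hyz.symm
      · exact h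
  · exact absurd (h2.trans h3.symm) hfg

include D in
/-- the outcome, TYPE I -/
lemma outI_of_redHyp {u x y z : {s : V // s ∈ act H S}}
    (ho : O2 H S u x z y ∨ O3 H S u x z y ∨ O4 H S u x z y) (huy : H.Adj u y) :
    U5Dis.OutI (gam H S) none (aG H S) (dG H S) (some u) (some x) (some y) (some z) := by
  have hS : ∀ s : {s : V // s ∈ act H S}, s.1 ∈ S := fun s => (mem_act.1 s.2).1
  rcases ho with ⟨h1, h2, h3⟩ | ⟨h1, h2, h3, h4⟩ | ⟨h1, h2, h3, h4, h5, h6, h7, h8⟩
  · left
    refine ⟨h3 huy, ?_⟩
    rintro (_ | w) hw huw hwx hwy hwz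
    · exact absurd rfl hw
    · exact h1 w (hS w) huw (fun h => hwx (congrArg some (Subtype.ext h)))
        (fun h => hwz (congrArg some (Subtype.ext h))) (fun h => hwy (congrArg some (Subtype.ext h)))
  · right; left
    refine ⟨h2, ?_, ?_⟩
    · rintro (_ | w) hw huw hwx hwy hwz
      · exact absurd rfl hw
      · exact h3 w (hS w) huw (fun h => hwx (congrArg some (Subtype.ext h)))
          (fun h => hwz (congrArg some (Subtype.ext h)))
          (fun h => hwy (congrArg some (Subtype.ext h)))
    · rintro (_ | w) hw huw hwu hwx hwz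
      · exact absurd rfl hw
      · exact h4 w (hS w) huw (fun h => hwu (congrArg some (Subtype.ext h)))
          (fun h => hwx (congrArg some (Subtype.ext h)))
          (fun h => hwz (congrArg some (Subtype.ext h)))
  · right; right
    refine ⟨h2, h3, h5, h7, h8, h6, ?_⟩
    rintro (_ | w) hw hyw
    · exact absurd rfl hw
    · rcases h4 w (hS w) hyw with h | h | h
      · left; exact congrArg some (Subtype.ext h)
      · right; left; exact congrArg some (Subtype.ext h)
      · right; right; exact congrArg some (Subtype.ext h)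

/-- the hypotheses of the discharging hold for a counterexample -/
theorem dc_of_outcome (h5 : Deg5 H S) (hcut : CutFree 3 H S)
    (ho : ∀ u z z' y, RedHyp H S u z z' y →
      O2 H S u z z' y ∨ O3 H S u z z' y ∨ O4 H S u z z' y) :
    U5Dis.DC D none (aG H S) (dG H S) := by
  have hnb : ∀ {u w : Option {s : V // s ∈ act H S}} {f : F}, D.on f u w → (gam H S).Adj u w :=
    fun h => D.on_adj _ _ _ h
  -- common part of `outI` and `nonadj`
  have key : ∀ (u x y z : {s : V // s ∈ act H S}) (f g : F), f ≠ g → D.on f (some u) (some x) →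
      D.on f (some u) (some y) → D.on g (some u) (some y) → D.on g (some u) (some z) →
      (some x : Option {s : V // s ∈ act H S}) ≠ some y →
      (some y : Option {s : V // s ∈ act H S}) ≠ some z → D.len f = 3 →
      D.len g = 3 → deg H u = 5 → aV H S u ≤ 1 →
      (RedHyp H S u x z y) ∨ (RedHyp H S u z x y) := by
    intro u x y z f g hfg h1 h2 h3 h4 hxy hyz hf hg hdu hau
    obtain ⟨m, hm, ⟨hf', hg', hx, hz⟩ | ⟨hf', hg', hx, hz⟩⟩ :=
      corner_cases D hfg h1 h2 h3 h4 hxy hyz
    · left
      exact redHypI D hcut hx.symm hm hz.symm (by rw [← hf']; exact hf) (by rw [← hg']; exact hg)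
        hdu hau
    · right
      exact redHypI D hcut hz.symm hm hx.symm (by rw [← hg']; exact hg) (by rw [← hf']; exact hf)
        hdu hau
  refine ⟨?_, ?_, ?_, ?_, ?_, ?_⟩
  · rintro (_ | s) hv
    · exact absurd rfl hv
    · rw [gam_some_none, aG_some, aV_pos]
  · rintro (_ | s) hv
    · exact absurd rfl hv
    · rw [aG_some, dG_some]
      split_ifs with h
      · have := plane_deg_R D s h
        omega
      · have := plane_deg_deep D s (by omega)
        omega
  · rintro (_ | s) hv
    · exact absurd rfl hv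
    · exact h5 s s.2
  · rintro u x y z f g hu hx hy hz hfg h1 h2 h3 h4 hxy hyz hf hg hdu hau
    obtain ⟨u, rfl⟩ := ne_none hu
    obtain ⟨x, rfl⟩ := ne_none hx
    obtain ⟨y, rfl⟩ := ne_none hy
    obtain ⟨z, rfl⟩ := ne_none hz
    have huy : H.Adj u y := D.on_adj _ _ _ h2
    rcases key u x y z f g hfg h1 h2 h3 h4 hxy hyz hf hg hdu hau with hr | hr
    · exact outI_of_redHyp D (ho _ _ _ _ hr) huy
    · have h6 := outI_of_redHyp D (ho _ _ _ _ hr) huy
      unfold U5Dis.OutI at h6 ⊢
      rcases h6 with ⟨h7, h8⟩ | ⟨h7, h8, h9⟩ | ⟨h7, h8, h9, h10, h11, h12, h13⟩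
      · exact Or.inl ⟨h7, fun w a b c d e => h8 w a b e d c⟩
      · exact Or.inr (Or.inl ⟨h7, fun w a b c d e => h8 w a b e d c,
          fun w a b c d e => h9 w a b c e d⟩)
      · refine Or.inr (Or.inr ⟨h7, h8, h9, h11, h10, by omega, fun w a b => ?_⟩)
        rcases h13 w a b with h | h | h
        · exact Or.inl h
        · exact Or.inr (Or.inr h)
        · exact Or.inr (Or.inl h)
  · rintro u x y z f g hu hx hy hz hfg h1 h2 h3 h4 hxy hyz hf hg hdu hau
    obtain ⟨u, rfl⟩ := ne_none hu
    obtain ⟨x, rfl⟩ := ne_none hx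
    obtain ⟨y, rfl⟩ := ne_none hy
    obtain ⟨z, rfl⟩ := ne_none hz
    have hau' : aV H S u = 0 := hau
    rcases key u x y z f g hfg h1 h2 h3 h4 hxy hyz hf hg hdu (by omega) with hr | hr
    · exact hr.nadj
    · intro h
      exact hr.nadj (SimpleGraph.Adj.symm h)
  · rintro f i h4 hno ⟨hu, hau, hdu⟩ hn2
    obtain ⟨u, hus⟩ := ne_none hu
    rw [hus] at hau hdu
    have hau' : aV H S u = 0 := hau
    have hdu' : deg H u = 5 := hdu
    obtain ⟨m, hm⟩ := (D.Von_iff f (some u)).1 ⟨i, hus⟩
    have hno' : ¬ D.Von (D.fc (some u) m) none := by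
      rw [hm]; exact fun h => hno ((U5Dis.von_iff_vx D f none).2 h)
    obtain ⟨z, z', y, hz, hz', hyV, hyu, hyz, hyz', hall, hr⟩ :=
      redHypIII D hcut (by rw [hm]; exact h4) hno' hdu' hau'
    have hdeg5 := plane_deg_deep D u hau'
    rw [hdu'] at hdeg5
    -- `u` and `y` are not adjacent
    have hnuy : ¬ H.Adj u y := by
      intro h
      obtain ⟨j, hj⟩ := (D.adj_iff (some u) (some y)).1 h
      have hT := triOK hcut
      have hjm : j ≠ m := fun h' => hyz (Option.some_injective _ (by rw [← hj, ← hz, h']))
      have hjm1 : j ≠ m + 1 := fun h' => hyz' (Option.some_injective _ (by rw [← hj, ← hz', h']))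
      have hc1 : ∀ r : ℕ, 1 ≤ r → r < 5 → ((r : ℕ) : ZMod (D.deg (some u))) ≠ 0 :=
        fun r h h' => zmod_cast_ne_zero h (by omega)
      have e1 : j + 1 = m := by
        by_contra h1
        exact D.not_adj_of_far hT (u := some u) (by simp) (i := j) (j := m) hjm h1
          (fun h2 => hjm1 h2.symm) (by rw [hj]; simp) (by rw [hz]; simp)
          (by rw [hj, hz]; exact hr.zy.symm)
      have e2 : m + 1 + 1 = j := by
        by_contra h1
        refine D.not_adj_of_far hT (u := some u) (by simp) (i := j) (j := m + 1) hjm1 ?_ h1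
          (by rw [hj]; simp) (by rw [hz']; simp) (by rw [hj, hz']; exact hr.zy'.symm)
        intro h2
        exact hjm (add_right_cancel h2)
      exact hc1 3 (by omega) (by omega) (by push_cast; linear_combination e1 + e2)
    have h6 : 6 ≤ deg H y := by
      rcases ho _ _ _ _ hr with h | h | h
      · exact h.2.1
      · exact absurd h.1 hnuy
      · exact absurd h.1 hnuy
    -- the vertex opposite to `u` is `y`
    have hopp : D.vx f (i + 2) = some y := by
      subst hm
      have h1 : D.Von (D.fc (some u) m) (D.vx (D.fc (some u) m) (i + 2)) := ⟨_, rfl⟩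
      have h3 : ∀ r : ℕ, 1 ≤ r → r < 4 → ((r : ℕ) : ZMod (D.len (D.fc (some u) m))) ≠ 0 :=
        fun r h h' => zmod_cast_ne_zero h (by omega)
      have hnu : D.vx (D.fc (some u) m) (i + 2) ≠ some u := by
        intro h
        have := D.vx_inj _ (h.trans hus.symm)
        exact h3 2 (by omega) (by omega) (by push_cast; linear_combination this)
      have hni : ∀ w, (w = D.vx (D.fc (some u) m) (i - 1) ∨ w = D.vx (D.fc (some u) m) (i + 1)) →
          D.vx (D.fc (some u) m) (i + 2) ≠ w := by
        rintro w (rfl | rfl) h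
        · have := D.vx_inj _ h
          exact h3 3 (by omega) (by omega) (by push_cast; linear_combination this)
        · have := D.vx_inj _ h
          exact h3 1 (by omega) (by omega) (by push_cast; linear_combination this)
      have hcor := D.corner_vx hus
      rcases hall _ h1 with h | h | h | h
      · exact absurd h hnu
      · exfalso
        refine hni (some z) ?_ h
        rw [← hz]
        rcases hcor with h7 | h7
        · exact Or.inl h7.1
        · exact Or.inr h7.1
      · exfalso
        refine hni (some z') ?_ h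
        rw [← hz']
        rcases hcor with h7 | h7
        · exact Or.inr h7.2
        · exact Or.inl h7.2
      · exact h
    have h7 := hn2.2.2
    rw [hopp, dG_some] at h7
    omega

/-- a flat vertex has an induced 6-cycle as its link -/
theorem lab_of_flat (hcut : CutFree 3 H S) {s : {s : V // s ∈ act H S}}
    (hf : U5Dis.Flat D none (aG H S) (dG H S) (some s)) : Link6 H s := by
  obtain ⟨_, ha, hd, hT⟩ := hf
  have ha' : aV H S s = 0 := ha
  have hd' : deg H s = 6 := hd
  have hdeg : D.deg (some s) = 6 := (plane_deg_deep D s ha').trans hd'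
  have hT3 : ∀ i, D.len (D.fc (some s) i) = 3 := fun i =>
    hT _ ((U5Dis.von_iff_vx D _ _).2 (D.Von_fc (some s) i))
  have hnn : ∀ i, ∃ t, D.nb (some s) i = some t := by
    intro i
    rcases h : D.nb (some s) i with _ | t
    · have := D.adj_nb (some s) i
      rw [h] at this
      have := aV_pos.2 this
      omega
    · exact ⟨t, rfl⟩
  choose t ht using hnn
  have hadj : ∀ x, H.Adj s.1 x ↔ ∃ i, x = (t i).1 := by
    intro x
    constructor
    · intro h
      by_cases hx : x ∈ S
      · have hxa := adj_act h hx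
        obtain ⟨i, hi⟩ := (D.adj_iff (some s) (some ⟨x, hxa⟩)).1 h
        refine ⟨i, ?_⟩
        rw [ht] at hi
        exact (congrArg Subtype.val (Option.some_injective _ hi)).symm
      · have := aV_pos.2 ⟨x, hx, h⟩
        omega
    · rintro ⟨i, rfl⟩
      have := D.adj_nb (some s) i
      rw [ht] at this
      exact this
  have hinj : Function.Injective (fun i => (t i).1) := by
    intro i j hij
    apply D.nb_inj (some s)
    rw [ht, ht]
    exact congrArg some (Subtype.ext hij)
  have hcyc : ∀ i j, H.Adj (t i).1 (t j).1 ↔ (j = i + 1 ∨ j = i - 1) := by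
    intro i j
    constructor
    · intro h
      by_contra hcon
      push Not at hcon
      have hij : i ≠ j := by
        rintro rfl
        exact h.ne rfl
      refine D.not_adj_of_far (triOK hcut) (u := some s) (by simp) (i := i) (j := j) hij
        (fun h' => hcon.1 h'.symm) (fun h' => hcon.2 (by rw [← h', add_sub_cancel_right]))
        (by rw [ht]; simp) (by rw [ht]; simp) ?_
      rw [ht, ht]
      exact h
    · rintro (rfl | rfl)
      · have := D.adj_of_len3 (hT3 i)
        rw [ht, ht] at this
        exact this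
      · have := D.adj_of_len3 (hT3 (i - 1))
        rw [sub_add_cancel, ht, ht] at this
        exact SimpleGraph.Adj.symm this
  have fin : ∀ n : ℕ, n = 6 → ∀ t : ZMod n → V, Function.Injective t →
      (∀ x, H.Adj s.1 x ↔ ∃ i, x = t i) → (∀ i j, H.Adj (t i) (t j) ↔ (j = i + 1 ∨ j = i - 1)) →
      Link6 H s := by
    intro n hn t h1 h2 h3
    subst hn
    exact ⟨t, h1, h2, h3⟩
  exact fin _ hdeg _ hinj hadj hcyc

/-- the two notions of a flat vertex agree -/
lemma link6_iff_flatV {v : V} : Link6 H v ↔ FlatV H v := by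
  constructor
  · rintro ⟨l, h⟩
    refine ⟨l, h.inj, fun w => ?_, fun j k => ?_⟩
    · rw [h.adj]
      exact ⟨fun ⟨i, hi⟩ => ⟨i, hi.symm⟩, fun ⟨i, hi⟩ => ⟨i, hi.symm⟩⟩
    · rw [h.cyc]
      constructor
      · rintro (h1 | h1)
        · exact Or.inl h1
        · exact Or.inr (by rw [h1, sub_add_cancel])
      · rintro (h1 | h1)
        · exact Or.inl h1
        · exact Or.inr (by rw [h1, add_sub_cancel_right])
  · rintro ⟨l, h⟩
    refine ⟨l, h.inj, fun w => ?_, fun j k => ?_⟩
    · rw [h.adj]
      exact ⟨fun ⟨i, hi⟩ => ⟨i, hi.symm⟩, fun ⟨i, hi⟩ => ⟨i, hi.symm⟩⟩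
    · rw [h.link]
      constructor
      · rintro (h1 | h1)
        · exact Or.inl h1
        · exact Or.inr (by rw [h1, add_sub_cancel_right])
      · rintro (h1 | h1)
        · exact Or.inl h1
        · exact Or.inr (by rw [h1, sub_add_cancel])

/-- if a vertex is far from all vertices which are not flat, then it is the centre of a flat ball -/
theorem flatB_of_not_NFk (hcut : CutFree 3 H S) : ∀ (k : ℕ) (s : {s : V // s ∈ act H S}),
    ¬ U5Dis.NFk D none (aG H S) (dG H S) k (some s) → FlatB H s.1 k := by
  have flat0 : ∀ (k : ℕ) (s : {s : V // s ∈ act H S}),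
      ¬ U5Dis.NFk D none (aG H S) (dG H S) k (some s) →
      U5Dis.Flat D none (aG H S) (dG H S) (some s) := by
    intro k
    induction k with
    | zero =>
      intro s h
      by_contra h'
      exact h h'
    | succ k ih =>
      intro s h
      exact ih s (fun h' => h (Or.inl h'))
  intro k
  induction k with
  | zero =>
    rintro s h v ⟨p, hp⟩
    have := SimpleGraph.Walk.eq_of_length_eq_zero (Nat.le_zero.1 hp)
    rw [← this]
    exact lab_of_flat D hcut (flat0 0 s h)
  | succ k ih =>
    rintro s h v ⟨p, hp⟩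
    cases p with
    | nil => exact lab_of_flat D hcut (flat0 (k + 1) s h)
    | @cons _ w _ hadj p =>
      have hfl := flat0 (k + 1) s h
      have hwS : w ∈ S := by
        by_contra hw
        have h1 := aV_pos.2 ⟨w, hw, hadj⟩
        have h2 : aV H S s = 0 := hfl.2.1
        omega
      have hwa := adj_act hadj hwS
      have h3 : ¬ U5Dis.NFk D none (aG H S) (dG H S) k (some ⟨w, hwa⟩) := by
        intro h'
        apply h
        exact Or.inr ⟨some ⟨w, hwa⟩, by simp, hadj, h'⟩
      exact ih ⟨w, hwa⟩ h3 v ⟨p, by simpa using hp⟩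

end Pool.Agent.U5
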