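import Pool.Agent.Helper42.U5.Corner
import Pool.Agent.Helper1.PG.Api

/-!
# Section 5: the potential is at least three
-/

set_option autoImplicit false

namespace Pool.Agent.U5

open SimpleGraph Finset Pool.Agent.Helper36.BL Pool.Agent.Helper1.PG
open scoped Classical

variable {V : Type} [Fintype V] {B H : SimpleGraph V} {S : Finset V} {F : Type} [Fintype F]
  (D : PlaneData (gam H S) F)

/-- deep vertices of degree five -/
def dp5 (H : SimpleGraph V) (S : Finset V) (v : Option {s : V // s ∈ act H S}) : Prop :=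
  ∃ s, v = some s ∧ aV H S s = 0 ∧ deg H s = 5

lemma dp5_some {s : {s : V // s ∈ act H S}} : dp5 H S (some s) ↔ aV H S s = 0 ∧ deg H s = 5 := by
  constructor
  · rintro ⟨t, h1, h2⟩
    rw [Option.some_injective _ h1]; exact h2
  · intro h; exact ⟨s, rfl, h⟩

/-- the corner count at a deep vertex of degree five -/
lemma three_corners {u : {s : V // s ∈ act H S}} (ha : aV H S u = 0) (h5 : deg H u = 5)
    (hI : ∀ m, D.len (D.fc (some u) (m - 1)) = 3 → D.len (D.fc (some u) m) = 3 → False) :
    3 ≤ (univ.filter (fun m => 4 ≤ D.len (D.fc (some u) m))).card := by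
  have hd := plane_deg_deep D u ha
  have h1 : (univ.filter (fun m => 4 ≤ D.len (D.fc (some u) m))).card +
      (univ.filter (fun m => ¬ 4 ≤ D.len (D.fc (some u) m))).card = 5 := by
    rw [Finset.card_filter_add_card_filter_not, card_univ, ZMod.card, hd, h5]
  have h2 : (univ.filter (fun m => ¬ 4 ≤ D.len (D.fc (some u) m))).card ≤
      (univ.filter (fun m => 4 ≤ D.len (D.fc (some u) m))).card := by
    apply card_le_card_of_injOn (fun m => m + 1)
    · intro m hm
      have hm' : ¬ 4 ≤ D.len (D.fc (some u) m) := by simpa using hm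
      have h3 := D.three_le_len (D.fc (some u) m)
      simp only [coe_filter, mem_univ, true_and, Set.mem_ofPred_eq]
      by_contra h4
      have h5' := D.three_le_len (D.fc (some u) (m + 1))
      refine hI (m + 1) ?_ (by omega)
      rw [add_sub_cancel_right]; omega
    · intro a _ b _ hab
      exact add_right_cancel hab
  omega

/-- the charge given by a face -/
lemma face_charge (f : F)
    (hIII : ∀ (u : {s : V // s ∈ act H S}) m, aV H S u = 0 → deg H u = 5 →
      D.len (D.fc (some u) m) = 4 → D.Von (D.fc (some u) m) none) :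
    2 * ∑ i : ZMod (D.len f), (if dp5 H S (D.vx f i) ∧ 4 ≤ D.len f then 1 else 0) ≤
      5 * (D.len f - 3) := by
  by_cases h4 : 4 ≤ D.len f
  swap
  · rw [Finset.sum_eq_zero]
    · simp
    · intro i _
      rw [if_neg (fun h => h4 h.2)]
  rw [← Finset.card_filter]
  have hle : (univ.filter (fun i => dp5 H S (D.vx f i) ∧ 4 ≤ D.len f)).card ≤ D.len f := by
    refine (card_le_univ _).trans ?_
    rw [ZMod.card]
  by_cases hn : D.Von f none
  · obtain ⟨i, hi⟩ := hn
    have hsub : univ.filter (fun i => dp5 H S (D.vx f i) ∧ 4 ≤ D.len f) ⊆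
        univ \ {i, i + 1, i - 1} := by
      intro j hj
      obtain ⟨⟨s, hs, ha, hd⟩, _⟩ := (mem_filter.1 hj).2
      simp only [mem_sdiff, mem_univ, true_and, mem_insert, mem_singleton, not_or]
      have hadj : ∀ j', (gam H S).Adj none (D.vx f j') → D.vx f j' = some s → False := by
        intro j' h1 h2
        rw [h2] at h1
        have := aV_pos.2 h1
        omega
      refine ⟨?_, ?_, ?_⟩
      · rintro rfl
        rw [hi] at hs
        exact absurd hs (by simp)
      · rintro rfl
        have := D.adj_vx_succ f i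
        rw [hi] at this
        exact hadj _ this hs
      · rintro rfl
        have := D.adj_vx_succ f (i - 1)
        rw [sub_add_cancel, hi] at this
        exact hadj _ this.symm hs
    have h3 : ({i, i + 1, i - 1} : Finset (ZMod (D.len f))).card = 3 := by
      have a1 : (1 : ZMod (D.len f)) ≠ 0 := D.one_ne' f
      have a2 : (2 : ZMod (D.len f)) ≠ 0 := D.two_ne' f
      rw [card_eq_three]
      refine ⟨_, _, _, ?_, ?_, ?_, rfl⟩
      · intro h; exact a1 (by linear_combination -h)
      · intro h; exact a1 (by linear_combination h)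
      · intro h; exact a2 (by linear_combination h)
    have := card_le_card hsub
    rw [card_sdiff_of_subset (subset_univ _), h3, card_univ, ZMod.card] at this
    omega
  · by_cases hex : ∃ i, dp5 H S (D.vx f i)
    · obtain ⟨i, s, hs, ha, hd⟩ := hex
      have h5 : 5 ≤ D.len f := by
        by_contra hlt
        have hl4 : D.len f = 4 := by omega
        obtain ⟨m, hm⟩ := (D.Von_iff f (D.vx f i)).1 ⟨i, rfl⟩
        have key : ∀ w, D.vx f i = w → w = some s → False := by
          rintro w hw rfl
          obtain ⟨m, hm⟩ := (D.Von_iff f (some s)).1 ⟨i, hw⟩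
          apply hn
          rw [← hm]
          exact hIII s m ha hd (by rw [hm]; exact hl4)
        exact key _ rfl hs
      omega
    · push Not at hex
      rw [Finset.card_eq_zero.2 (filter_eq_empty_iff.2 fun i _ h => hex i h.1)]
      simp

/-- Section 5 -/
theorem three_le_pot (hd : Data B H S) (nc : NoChord B H S) (h5 : Deg5 H S)
    (hI : ∀ (u : {s : V // s ∈ act H S}) m, aV H S u = 0 → deg H u = 5 →
      D.len (D.fc (some u) (m - 1)) = 3 → D.len (D.fc (some u) m) = 3 → False)
    (hIII : ∀ (u : {s : V // s ∈ act H S}) m, aV H S u = 0 → deg H u = 5 →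
      D.len (D.fc (some u) m) = 4 → D.Von (D.fc (some u) m) none) :
    3 ≤ pot B H S := by
  by_contra hlt
  push Not at hlt
  have h1 := D.euler
  rw [Fintype.card_option, Fintype.card_coe] at h1
  have h2 := pot_gam hd nc
  have h3 := two_card_gam H S
  set E : ℕ := Nat.card (gam H S).edgeSet with hE
  set R : ℕ := ((act H S).filter (fun s => 1 ≤ aV H S s)).card with hR
  set Dp : ℕ := ((act H S).filter (fun s => aV H S s = 0 ∧ deg H s = 5)).card with hDp
  have h4 : 6 * (act H S).card ≤ ∑ s ∈ act H S, deg H s + R + Dp := by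
    rw [hR, hDp, card_filter, card_filter, ← sum_add_distrib, ← sum_add_distrib, mul_comm,
      ← smul_eq_mul, ← sum_const]
    apply sum_le_sum
    intro s hs
    have h6 := h5 s hs
    split_ifs with h7 h8 h8 <;> omega
  have h6 : ∑ s ∈ act H S, deg H s = ∑ s ∈ act H S, sI H S s + ∑ s ∈ act H S, aV H S s := by
    rw [← sum_add_distrib]
    exact sum_congr rfl fun s _ => deg_eq H S s
  have h6' : ((∑ s ∈ act H S, aV H S s : ℕ) : ℤ) = ∑ s ∈ act H S, (aV H S s : ℤ) := by
    push_cast; rfl
  rw [← h6'] at h2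
  -- double counting
  have h7 := D.sum_corners (fun v f => if dp5 H S v ∧ 4 ≤ D.len f then 1 else 0 : _ → _ → ℕ)
  have h8 : 3 * Dp ≤ ∑ u, ∑ m : ZMod (D.deg u),
      (if dp5 H S u ∧ 4 ≤ D.len (D.fc u m) then 1 else 0) := by
    have h9 : 3 * Dp = ∑ u ∈ (univ : Finset (Option {s : V // s ∈ act H S})).filter (dp5 H S), 3 := by
      rw [sum_const, smul_eq_mul, mul_comm]
      congr 1
      rw [hDp]
      apply card_bij (fun s hs => some ⟨s, (mem_filter.1 hs).1⟩)
      · intro s hs
        rw [mem_filter]
        exact ⟨mem_univ _, dp5_some.2 (mem_filter.1 hs).2⟩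
      · intro s hs t ht h
        exact congrArg Subtype.val (Option.some_injective _ h)
      · intro v hv
        obtain ⟨s, rfl, h10⟩ := (mem_filter.1 hv).2
        exact ⟨s.1, mem_filter.2 ⟨s.2, h10⟩, rfl⟩
    rw [h9]
    refine le_trans (sum_le_sum (g := fun u => ∑ m : ZMod (D.deg u),
      (if dp5 H S u ∧ 4 ≤ D.len (D.fc u m) then 1 else 0)) ?_)
      (sum_le_sum_of_subset (filter_subset _ _))
    intro v hv
    obtain ⟨s, rfl, ha, hs⟩ := (mem_filter.1 hv).2
    have h10 := three_corners D ha hs (hI s · ha hs)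
    rw [card_filter] at h10
    refine h10.trans (le_of_eq (sum_congr rfl fun m _ => ?_))
    have : dp5 H S (some s) := dp5_some.2 ⟨ha, hs⟩
    simp only [this, true_and]
  rw [h7] at h8
  have h9 : 2 * ∑ f, ∑ i : ZMod (D.len f), (if dp5 H S (D.vx f i) ∧ 4 ≤ D.len f then 1 else 0) ≤
      ∑ f, 5 * (D.len f - 3) := by
    rw [mul_sum]
    exact sum_le_sum fun f _ => face_charge D f hIII
  have h10 : ((∑ f, 5 * (D.len f - 3) : ℕ) : ℤ) = 5 * ∑ f, ((D.len f : ℤ) - 3) := by
    push_cast
    rw [mul_sum]
    apply sum_congr rfl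
    intro f _
    rw [Nat.cast_sub (D.three_le_len f)]
    push_cast
    ring
  have h11 : 0 ≤ ∑ f, ((D.len f : ℤ) - 3) := by
    apply sum_nonneg
    intro f _
    have := D.three_le_len f
    omega
  have h12 : (6 * Dp : ℤ) ≤ 5 * ∑ f, ((D.len f : ℤ) - 3) := by
    rw [← h10]
    have : 6 * Dp ≤ ∑ f, 5 * (D.len f - 3) := by omega
    exact_mod_cast this
  omega

include D in
/-- Section 5, from the outcome statement -/
theorem three_le_pot' {η : ℝ} {c1 : ℕ} (hd : Data B H S) (nc : NoChord B H S) (h5 : Deg5 H S)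
    (hcut : CutFree 3 H S) (ho : Outcome η c1 B H S) : 3 ≤ pot B H S := by
  by_contra hlt
  apply hlt
  apply three_le_pot D hd nc h5
  · intro u m ha h6 h7 h8
    have hnn : ∀ i, ∃ s, D.nb (some u) i = some s := by
      intro i
      rcases h : D.nb (some u) i with _ | s
      · have := D.adj_nb (some u) i
        rw [h] at this
        have := aV_pos.2 this
        omega
      · exact ⟨s, rfl⟩
    obtain ⟨z, hz⟩ := hnn (m - 1)
    obtain ⟨y, hy⟩ := hnn m
    obtain ⟨z', hz'⟩ := hnn (m + 1)
    exact hlt (ho _ _ _ _ (redHypI D hcut hz hy hz' h7 h8 h6 (by omega))).1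
  · intro u m ha h6 h7
    by_contra hn
    obtain ⟨z, z', y, _, _, _, _, _, _, _, hr⟩ := redHypIII D hcut h7 hn h6 ha
    exact hlt (ho _ _ _ _ hr).1

end Pool.Agent.U5
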