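import Pool.Agent.U5.Gamma
import Pool.Agent.Helper1.PG.Sep

/-!
# Corner configurations of `Γ = gam H S` and reductions
-/

set_option autoImplicit false

namespace Pool.Agent.U5

open SimpleGraph Finset Pool.Agent.Helper36.BL Pool.Agent.Helper1.PG
open scoped Classical

section proj

variable {V : Type}

/-- projection to `Γ` -/
noncomputable def prj (H : SimpleGraph V) (S : Finset V) (v : V) : Option {s : V // s ∈ act H S} :=
  if h : v ∈ act H S then some ⟨v, h⟩ else none

lemma prj_of_mem {H : SimpleGraph V} {S : Finset V} {v : V} (h : v ∈ act H S) :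
    prj H S v = some ⟨v, h⟩ := dif_pos h

lemma prj_val {H : SimpleGraph V} {S : Finset V} (s : {s : V // s ∈ act H S}) :
    prj H S s.1 = some s := prj_of_mem s.2

lemma prj_of_not {H : SimpleGraph V} {S : Finset V} {v : V} (h : v ∉ act H S) :
    prj H S v = none := dif_neg h

lemma prj_adj {H : SimpleGraph V} {S : Finset V} {v w : V} (h : H.Adj v w) :
    prj H S v = prj H S w ∨ (gam H S).Adj (prj H S v) (prj H S w) := by
  by_cases hv : v ∈ S
  · have hva := adj_act h.symm hv
    by_cases hw : w ∈ S
    · have hwa := adj_act h hw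
      right
      rw [prj_of_mem hva, prj_of_mem hwa]
      exact h
    · right
      have hwa : w ∉ act H S := fun h' => hw (mem_act.1 h').1
      rw [prj_of_mem hva, prj_of_not hwa]
      exact ⟨w, hw, h⟩
  · have hva : v ∉ act H S := fun h' => hv (mem_act.1 h').1
    by_cases hw : w ∈ S
    · have hwa := adj_act h hw
      right
      rw [prj_of_not hva, prj_of_mem hwa]
      exact ⟨v, hv, h.symm⟩
    · left
      have hwa : w ∉ act H S := fun h' => hw (mem_act.1 h').1
      rw [prj_of_not hva, prj_of_not hwa]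

lemma walk_prj {H : SimpleGraph V} {S : Finset V} {a b : V} (p : H.Walk a b) (P : V → Prop)
    (Q : Option {s : V // s ∈ act H S} → Prop) (hQ : ∀ v, P v → Q (prj H S v)) :
    (∀ v ∈ p.support, P v) →
    Relation.ReflTransGen (fun x y => (gam H S).Adj x y ∧ Q x ∧ Q y) (prj H S a) (prj H S b) := by
  induction p with
  | nil => intro _; exact Relation.ReflTransGen.refl
  | @cons a c b h p ih =>
    intro hP
    have h1 := ih (fun v hv => hP v (by rw [Walk.support_cons]; exact List.mem_cons_of_mem _ hv))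
    have ha : P a := hP a (by rw [Walk.support_cons]; exact List.mem_cons_self)
    have hc : P c := hP c (by
      rw [Walk.support_cons]; exact List.mem_cons_of_mem _ p.start_mem_support)
    rcases prj_adj (S := S) h with h2 | h2
    · rw [h2]; exact h1
    · exact Relation.ReflTransGen.head ⟨h2, hQ a ha, hQ c hc⟩ h1

/-- after the deletion of a clique `T` everything is joined to `none` -/
lemma reach_none {H : SimpleGraph V} {S : Finset V} (hcut : CutFree 3 H S) (T : Finset V)
    (hT : T.card ≤ 3) (hcl : ∀ x ∈ T, ∀ y ∈ T, x ≠ y → H.Adj x y)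
    (x : Option {s : V // s ∈ act H S}) (hx : ∀ s, x = some s → s.1 ∉ T) :
    Relation.ReflTransGen (fun p q => (gam H S).Adj p q ∧ (∀ s, p = some s → s.1 ∉ T) ∧
      (∀ s, q = some s → s.1 ∉ T)) none x := by
  by_contra hcon
  set K : Finset V := (act H S).filter (fun s => s ∉ T ∧ ∀ hs : s ∈ act H S,
    ¬ Relation.ReflTransGen (fun p q => (gam H S).Adj p q ∧ (∀ s, p = some s → s.1 ∉ T) ∧
      (∀ s, q = some s → s.1 ∉ T)) none (some ⟨s, hs⟩)) with hK
  refine hcut T K (Finset.filter_subset _ _) ?_ ?_ hT hcl ?_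
  · rw [Finset.disjoint_left]
    intro s hs
    exact (Finset.mem_filter.1 hs).2.1
  · rcases x with _ | s
    · exact absurd Relation.ReflTransGen.refl hcon
    · exact ⟨s.1, Finset.mem_filter.2 ⟨s.2, hx s rfl, fun _ => hcon⟩⟩
  · intro s hs y hy
    by_contra hcon2
    push Not at hcon2
    obtain ⟨hyK, hyT⟩ := hcon2
    obtain ⟨hsA, hsT, hsn⟩ := Finset.mem_filter.1 hs
    by_cases hyS : y ∈ S
    · have hyA := adj_act hy hyS
      apply hyK
      refine Finset.mem_filter.2 ⟨hyA, hyT, ?_⟩
      intro _ hr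
      apply hsn hsA
      refine hr.tail ⟨hy.symm, ?_, ?_⟩
      · intro t h
        have := Option.some_injective _ h
        rw [← this]
        exact hyT
      · intro t h
        have := Option.some_injective _ h
        rw [← this]
        exact hsT
    · apply hsn hsA
      refine Relation.ReflTransGen.single ⟨⟨y, hyS, hy⟩, by simp, ?_⟩
      intro t h
      have := Option.some_injective _ h
      rw [← this]
      exact hsT

theorem triOK {H : SimpleGraph V} {S : Finset V} (hcut : CutFree 3 H S) :
    TriOK (gam H S) none := by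
  rintro (_ | a) (_ | b) (_ | c) hab hbc hac ha hb hc p q hp hq
  all_goals first | exact absurd rfl ha | exact absurd rfl hb | exact absurd rfl hc | skip
  have hcl : ∀ x ∈ ({a.1, b.1, c.1} : Finset V), ∀ y ∈ ({a.1, b.1, c.1} : Finset V), x ≠ y →
      H.Adj x y := by
    intro x hx y hy hxy
    simp only [Finset.mem_insert, Finset.mem_singleton] at hx hy
    have hab' : H.Adj a.1 b.1 := hab
    have hbc' : H.Adj b.1 c.1 := hbc
    have hac' : H.Adj a.1 c.1 := hac
    rcases hx with rfl | rfl | rfl <;> rcases hy with rfl | rfl | rfl <;>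
      first | exact absurd rfl hxy | assumption | exact SimpleGraph.Adj.symm (by assumption)
  have key : ∀ x : Option {s : V // s ∈ act H S}, (x ≠ some a ∧ x ≠ some b ∧ x ≠ some c) →
      ∀ s, x = some s → s.1 ∉ ({a.1, b.1, c.1} : Finset V) := by
    rintro x ⟨h1, h2, h3⟩ s rfl h
    simp only [Finset.mem_insert, Finset.mem_singleton] at h
    rcases h with h | h | h
    · exact h1 (congrArg some (Subtype.ext h))
    · exact h2 (congrArg some (Subtype.ext h))
    · exact h3 (congrArg some (Subtype.ext h))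
  have key2 : ∀ x : Option {s : V // s ∈ act H S},
      (∀ s, x = some s → s.1 ∉ ({a.1, b.1, c.1} : Finset V)) →
      (x ≠ some a ∧ x ≠ some b ∧ x ≠ some c) := by
    intro x hx
    refine ⟨?_, ?_, ?_⟩ <;>
    · intro h
      exact hx _ h (by simp)
  have hsymm : ∀ x y, Relation.ReflTransGen (fun r t => (gam H S).Adj r t ∧
      (r ≠ some a ∧ r ≠ some b ∧ r ≠ some c) ∧ (t ≠ some a ∧ t ≠ some b ∧ t ≠ some c)) x y →
      Relation.ReflTransGen (fun r t => (gam H S).Adj r t ∧
      (r ≠ some a ∧ r ≠ some b ∧ r ≠ some c) ∧ (t ≠ some a ∧ t ≠ some b ∧ t ≠ some c)) y x := by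
    intro x y h
    induction h with
    | refl => exact Relation.ReflTransGen.refl
    | tail _ h2 ih => exact Relation.ReflTransGen.head ⟨h2.1.symm, h2.2.2, h2.2.1⟩ ih
  have hto : ∀ x, (x ≠ some a ∧ x ≠ some b ∧ x ≠ some c) →
      Relation.ReflTransGen (fun r t => (gam H S).Adj r t ∧
      (r ≠ some a ∧ r ≠ some b ∧ r ≠ some c) ∧ (t ≠ some a ∧ t ≠ some b ∧ t ≠ some c)) none x := by
    intro x hx
    have h := reach_none hcut {a.1, b.1, c.1} (card_le_three) hcl x (key x hx)
    refine Relation.ReflTransGen.mono (r := fun p q => (gam H S).Adj p q ∧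
      (∀ s, p = some s → s.1 ∉ ({a.1, b.1, c.1} : Finset V)) ∧
      (∀ s, q = some s → s.1 ∉ ({a.1, b.1, c.1} : Finset V))) ?_ _ _ h
    intro r t hrt
    exact ⟨hrt.1, key2 _ hrt.2.1, key2 _ hrt.2.2⟩
  exact (hsymm _ _ (hto p hp)).trans (hto q hq)

end proj

section plane

variable {V : Type} [Fintype V] {H : SimpleGraph V} {S : Finset V} {F : Type} [Fintype F]
  (D : PlaneData (gam H S) F)

lemma plane_deg_deep (s : {s : V // s ∈ act H S}) (h : aV H S s = 0) :
    D.deg (some s) = deg H s := by
  rw [D.deg_eq_card, deg_eq H S s]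
  have h1 := deg_gam_some H S s
  rw [if_neg (by omega), add_zero] at h1
  rw [h, add_zero, ← h1]
  rfl

lemma plane_deg_R (s : {s : V // s ∈ act H S}) (h : 1 ≤ aV H S s) :
    D.deg (some s) + aV H S s = deg H s + 1 := by
  rw [D.deg_eq_card, deg_eq H S s]
  have h1 := deg_gam_some H S s
  rw [if_pos h] at h1
  have h2 : (univ.filter ((gam H S).Adj (some s))).card = sI H S s + 1 := by
    rw [← h1]; rfl
  rw [h2]
  omega

/-- separation for sets: TYPE I -/
lemma sepI_set {u : {s : V // s ∈ act H S}} {m : ZMod (D.deg (some u))}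
    {z y z' : {s : V // s ∈ act H S}} (hz : D.nb (some u) (m - 1) = some z)
    (hy : D.nb (some u) m = some y) (hz' : D.nb (some u) (m + 1) = some z') (hne : z ≠ z') :
    Sep H S u z z' y := by
  intro A hA hyA huA hzA hz'A hconn ⟨p, hp⟩ x hx hux
  set X : Option {s : V // s ∈ act H S} → Prop := fun w => ∃ s, w = some s ∧ s.1 ∈ A with hX
  have hXs : ∀ s : {s : V // s ∈ act H S}, X (some s) ↔ s.1 ∈ A := by
    intro s
    constructor
    · rintro ⟨t, h1, h2⟩
      rw [Option.some_injective _ h1]; exact h2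
    · intro h; exact ⟨s, rfl, h⟩
  have hpath := walk_prj (S := S) p (fun v => v ≠ u.1 ∧ v ∉ A)
    (fun w => w ≠ some u ∧ ¬ X w) (by
      rintro v ⟨h1, h2⟩
      by_cases hv : v ∈ act H S
      · rw [prj_of_mem hv]
        refine ⟨fun h => h1 (congrArg Subtype.val (Option.some_injective _ h)), ?_⟩
        rw [hXs]; exact h2
      · rw [prj_of_not hv]
        refine ⟨by simp, ?_⟩
        rintro ⟨t, h3, _⟩
        exact absurd h3 (by simp)) hp
  rw [prj_val, prj_val] at hpath
  have hxa := hA hx
  have h := D.sepI (X := X) (u := some u) (m := m) (by rw [hXs]; exact huA)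
    (by rw [hz, hXs]; exact hzA) (by rw [hz', hXs]; exact hz'A)
    (by rw [hz, hz']; exact fun h => hne (Option.some_injective _ h))
    (by rw [hz, hz']; exact hpath)
    (by
      rintro _ _ ⟨a, rfl, ha⟩ ⟨b, rfl, hb⟩
      obtain ⟨w, hw⟩ := hconn a.1 ha b.1 hb
      have := walk_prj (S := S) w (fun v => v ∈ A) X (by
        intro v hv
        rw [prj_of_mem (hA hv), hXs]; exact hv) hw
      rwa [prj_val, prj_val] at this)
    (by rw [hy, hXs]; exact hyA) (some ⟨x, hxa⟩) ((hXs _).2 hx) hux
  rw [hy] at h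
  exact congrArg Subtype.val (Option.some_injective _ h)

/-- separation for sets: TYPE III -/
lemma sepIII_set {u : {s : V // s ∈ act H S}} {m : ZMod (D.deg (some u))}
    {z y z' : {s : V // s ∈ act H S}} (hz : D.nb (some u) m = some z)
    (hz' : D.nb (some u) (m + 1) = some z') (hy : D.Von (D.fc (some u) m) (some y)) :
    Sep H S u z z' y := by
  intro A hA hyA huA hzA hz'A hconn ⟨p, hp⟩ x hx hux
  set X : Option {s : V // s ∈ act H S} → Prop := fun w => ∃ s, w = some s ∧ s.1 ∈ A with hX
  have hXs : ∀ s : {s : V // s ∈ act H S}, X (some s) ↔ s.1 ∈ A := by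
    intro s
    constructor
    · rintro ⟨t, h1, h2⟩
      rw [Option.some_injective _ h1]; exact h2
    · intro h; exact ⟨s, rfl, h⟩
  have hpath := walk_prj (S := S) p (fun v => v ≠ u.1 ∧ v ∉ A)
    (fun w => w ≠ some u ∧ ¬ X w) (by
      rintro v ⟨h1, h2⟩
      by_cases hv : v ∈ act H S
      · rw [prj_of_mem hv]
        refine ⟨fun h => h1 (congrArg Subtype.val (Option.some_injective _ h)), ?_⟩
        rw [hXs]; exact h2
      · rw [prj_of_not hv]
        refine ⟨by simp, ?_⟩
        rintro ⟨t, h3, _⟩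
        exact absurd h3 (by simp)) hp
  rw [prj_val, prj_val] at hpath
  have hxa := hA hx
  exact absurd hux (D.sepIII (X := X) (u := some u) (m := m) (by rw [hXs]; exact huA)
    (by rw [hz, hXs]; exact hzA) (by rw [hz', hXs]; exact hz'A)
    (by rw [hz, hz']; exact hpath)
    (by
      rintro _ _ ⟨a, rfl, ha⟩ ⟨b, rfl, hb⟩
      obtain ⟨w, hw⟩ := hconn a.1 ha b.1 hb
      have := walk_prj (S := S) w (fun v => v ∈ A) X (by
        intro v hv
        rw [prj_of_mem (hA hv), hXs]; exact hv) hw
      rwa [prj_val, prj_val] at this)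
    (x := some y) (by rw [hXs]; exact hyA) hy (some ⟨x, hxa⟩) ((hXs _).2 hx))

/-- number of neighbours in `S` -/
lemma card_nbr_S (v : V) : (S.filter (fun x => H.Adj v x)).card + aV H S v = deg H v := by
  unfold aV deg
  rw [← Finset.card_union_of_disjoint]
  · congr 1
    ext x
    simp only [Finset.mem_filter, Finset.mem_univ, true_and, Finset.mem_union]
    constructor
    · rintro (h | h)
      · exact h.2
      · exact h.2
    · intro h
      by_cases hx : x ∈ S
      · exact Or.inl ⟨hx, h⟩
      · exact Or.inr ⟨hx, h⟩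
  · rw [Finset.disjoint_left]
    intro x hx hx'
    exact (Finset.mem_filter.1 hx').2.1 (Finset.mem_filter.1 hx).1

lemma exists_other {v a b c : V} (h : 4 ≤ (S.filter (fun x => H.Adj v x)).card) :
    ∃ x ∈ S, H.Adj v x ∧ x ≠ a ∧ x ≠ b ∧ x ≠ c := by
  by_contra hcon
  push Not at hcon
  have : S.filter (fun x => H.Adj v x) ⊆ {a, b, c} := by
    intro x hx
    obtain ⟨h1, h2⟩ := Finset.mem_filter.1 hx
    simp only [Finset.mem_insert, Finset.mem_singleton]
    by_cases ha : x = a
    · exact Or.inl ha
    by_cases hb : x = b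
    · exact Or.inr (Or.inl hb)
    exact Or.inr (Or.inr (hcon x h1 h2 ha hb))
  have h3 := (Finset.card_le_card this).trans card_le_three
  omega

/-- TYPE I configurations give the hypotheses of a reduction -/
theorem redHypI (hcut : CutFree 3 H S) {u : {s : V // s ∈ act H S}} {m : ZMod (D.deg (some u))}
    {z y z' : {s : V // s ∈ act H S}} (hz : D.nb (some u) (m - 1) = some z)
    (hy : D.nb (some u) m = some y) (hz' : D.nb (some u) (m + 1) = some z')
    (h1 : D.len (D.fc (some u) (m - 1)) = 3) (h2 : D.len (D.fc (some u) m) = 3)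
    (hdeg : deg H u = 5) (hau : aV H S u ≤ 1) : RedHyp H S u z z' y := by
  have hd4 : 4 ≤ D.deg (some u) := by
    rcases Nat.eq_zero_or_pos (aV H S u) with h | h
    · rw [plane_deg_deep D u h]; omega
    · have := plane_deg_R D u h; omega
  have hc1 : ∀ r : ℕ, 1 ≤ r → r < D.deg (some u) → ((r : ℕ) : ZMod (D.deg (some u))) ≠ 0 :=
    fun r h h' => zmod_cast_ne_zero h h'
  have h12 : (m - 1) ≠ m + 1 := fun h => hc1 2 (by omega) (by omega) (by
    push_cast; linear_combination -h)
  have hne : z ≠ z' := by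
    intro h
    apply h12
    apply D.nb_inj
    rw [hz, hz', h]
  have hzy : H.Adj z y := by
    have := D.adj_of_len3 h1
    rw [sub_add_cancel, hz, hy] at this
    exact this
  have hyz' : H.Adj y z' := by
    have := D.adj_of_len3 h2
    rw [hy, hz'] at this
    exact this
  have hadj : ∀ i w, D.nb (some u) i = some w → H.Adj u.1 w.1 := by
    intro i w h
    have := D.adj_nb (some u) i
    rw [h] at this
    exact this
  refine ⟨(mem_act.1 u.2).1, (mem_act.1 z.2).1, (mem_act.1 z'.2).1, (mem_act.1 y.2).1, hdeg,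
    hadj _ _ hz, hadj _ _ hz', fun h => hne (Subtype.ext h), ?_, (hadj _ _ hy).ne', hzy, hyz'.symm,
    hau, fun h => absurd (hadj _ _ hy) h, ?_, sepI_set D hz hy hz' hne⟩
  · have := D.not_adj_of_far (triOK hcut) (u := some u) (by simp) (i := m - 1) (j := m + 1) h12
      (fun h => hc1 1 (by omega) (by omega) (by push_cast; linear_combination -h))
      (fun h => hc1 3 (by omega) (by omega) (by push_cast; linear_combination h))
      (by rw [hz]; simp) (by rw [hz']; simp)
    rw [hz, hz'] at this
    exact this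
  · apply exists_other
    have := card_nbr_S (H := H) (S := S) u.1
    omega

/-- TYPE III configurations give the hypotheses of a reduction -/
theorem redHypIII (hcut : CutFree 3 H S) {u : {s : V // s ∈ act H S}}
    {m : ZMod (D.deg (some u))} (h4 : D.len (D.fc (some u) m) = 4)
    (hn : ¬ D.Von (D.fc (some u) m) none) (hdeg : deg H u = 5) (hau : aV H S u = 0) :
    ∃ z z' y : {s : V // s ∈ act H S}, D.nb (some u) m = some z ∧
      D.nb (some u) (m + 1) = some z' ∧ D.Von (D.fc (some u) m) (some y) ∧ y ≠ u ∧ y ≠ z ∧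
      y ≠ z' ∧ (∀ w, D.Von (D.fc (some u) m) w → w = some u ∨ w = some z ∨ w = some z' ∨
        w = some y) ∧ RedHyp H S u z z' y := by
  obtain ⟨x, hxu, hxz, hxz', hxV, hxa, hxb, hall⟩ := D.exists_opposite h4
  have hnn : ∀ w, D.Von (D.fc (some u) m) w → ∃ s, w = some s := by
    rintro (_ | s) h
    · exact absurd h hn
    · exact ⟨s, rfl⟩
  obtain ⟨z, hz⟩ := hnn _ (D.Von_nb (some u) m)
  obtain ⟨z', hz'⟩ := hnn _ (D.Von_nb' (some u) m)
  obtain ⟨y, rfl⟩ := hnn _ hxV
  rw [hz] at hxz hxa
  rw [hz'] at hxz' hxb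
  have hadj : ∀ i w, D.nb (some u) i = some w → H.Adj u.1 w.1 := by
    intro i w h
    have := D.adj_nb (some u) i
    rw [h] at this
    exact this
  have hd := plane_deg_deep D u hau
  refine ⟨z, z', y, hz, hz', hxV, fun h => hxu (by rw [h]), fun h => hxz (by rw [h]),
    fun h => hxz' (by rw [h]), ?_, ?_⟩
  · intro w hw
    have := hall w hw
    rwa [hz, hz'] at this
  · refine ⟨(mem_act.1 u.2).1, (mem_act.1 z.2).1, (mem_act.1 z'.2).1, (mem_act.1 y.2).1, hdeg,
      hadj _ _ hz, hadj _ _ hz', ?_, ?_, fun h => hxu (congrArg some (Subtype.ext h)),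
      SimpleGraph.Adj.symm hxa, SimpleGraph.Adj.symm hxb, by omega, fun _ => hau, ?_,
      sepIII_set D hz hz' hxV⟩
    · intro h
      have h5 := D.nb_ne (some u) m
      rw [hz, hz'] at h5
      exact h5 (congrArg some (Subtype.ext h))
    · have := D.not_adj_of_long (triOK hcut) (u := some u) (by simp) (m := m)
        (by rw [hz]; simp) (by rw [hz']; simp) (by omega) (by omega)
      rw [hz, hz'] at this
      exact this
    · apply exists_other
      have := card_nbr_S (H := H) (S := S) u.1
      omega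

end plane

end Pool.Agent.U5
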